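import Pool.Agent.Q84.RS2

set_option autoImplicit false

/-!
# The sizes of gaps up to the record scale in several residue classes at once

Let `f(X) = log X (log₂ X)² log₄ X / (log₃ X)²`, the size of the largest gaps which are known here to occur
below `X`. There is an absolute `T₀` such that the following holds for every `r ≥ 1`,
`R = 1 + r + r² + … + r^((T₀ - 2) r)`, all multipliers `A_1, …, A_r ≥ 1` and squarefree moduli `d_1, …, d_r`
(for instance `r = t φ(d)`: all pairs of a multiplier `1, …, t` and a reduced residue class modulo `d`). There is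
`M ≥ 1` such that for all `ε > 0` there is `C` with: let `X` be large, `a_j` prime to `d_j`, `N` a multiple of `M`
(which may depend on `X`). Call `g = N k` common if for EVERY `j` at least `X^(6/7)` primes `p ≡ a_j (mod d_j)` in
`(X, 4 X]` have `p + A_j g` as the next prime. Then

* in EVERY window `u < k ≤ u + H` with `H ≥ C` and `C N (u + H) ≤ f(X)`, for all but `ε H` of the `k` one of
  the numbers `N k, 2 N k, …, R N k` is common;
* for `C ≤ Y`, `C N Y ≤ f(X)` at least `Y / (4 R²)` of the `k ≤ Y` give a common `N k`.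

So the same numbers (a proportion depending only on the number of classes and multipliers) of every size up to
a constant times the record scale are gaps between consecutive primes in all the classes, with the same
multiples.

Proof: the starting library's theorem on record windows (`Pool.Agent.TH101.RG.tuple_multiples`: of `T₀` classes
of positions two contain primes, all other numbers of the window are composite) is a statement on all
configurations of positions; the pairs of positions which are not good for all `j` are coloured by a `j` which is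
responsible, after Ramsey's theorem inside the classes the colour depends only on the pair of classes, and a
graph on `R + 1` vertices with `r` colours has `T₀` vertices with one colour; the configurations are found by
the multidimensional Szemeredi theorem (`Pool.Agent.Y877.combB`).
-/

namespace Pool.Agent.Results.MP_c853c5_nt.CommonGapSizes

open Finset Filter

/-- `f(X) = log X (log₂ X)² log₄ X / (log₃ X)²` (iterated natural logarithms). -/
noncomputable def f (X : ℝ) : ℝ :=
  Real.log X * (Real.log (Real.log X)) ^ 2 * Real.log (Real.log (Real.log (Real.log X))) /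
    (Real.log (Real.log (Real.log X))) ^ 2

/-- `p` and `p + g` are consecutive primes. -/
def Consec (p g : ℕ) : Prop := p.Prime ∧ (p + g).Prime ∧ ∀ q, p < q → q < p + g → ¬ q.Prime

/-- The number of the primes `p ≡ a (mod d)` in `(X, 4 X]` for which the next prime is `p + g`. -/
noncomputable def gapCount (X : ℝ) (d a g : ℕ) : ℕ :=
  {p : ℕ | X < p ∧ (p : ℝ) ≤ 4 * X ∧ p ≡ a [MOD d] ∧ Consec p g}.ncard

/-- `1 + r + r² + … + r^((T - 2) r)` -/
def R (T r : ℕ) : ℕ := ∑ i ∈ range ((T - 2) * r + 1), r ^ i

/-- For every `j` at least `X^(6/7)` primes `p ≡ a_j (mod d_j)` of `(X, 4 X]` are followed by the next prime at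
the distance `A_j g`. -/
def Common {r : ℕ} (X : ℝ) (d a A : Fin r → ℕ) (g : ℕ) : Prop :=
  ∀ j, X ^ (6 / 7 : ℝ) ≤ gapCount X (d j) (a j) (A j * g)

open Classical in
/-- **Common sizes of gaps up to the record scale.** -/
theorem result : ∃ T₀ : ℕ, 2 ≤ T₀ ∧ ∀ (r : ℕ), 0 < r → ∀ A d : Fin r → ℕ, (∀ j, 0 < A j) →
    (∀ j, Squarefree (d j)) → ∃ M : ℕ, 0 < M ∧
    (∀ ε : ℝ, 0 < ε → ∃ C : ℕ, ∀ᶠ X : ℝ in atTop,
      ∀ a : Fin r → ℕ, (∀ j, (a j).Coprime (d j)) → ∀ N : ℕ, 0 < N → M ∣ N →
      ∀ u H : ℕ, C ≤ H → ((C * (N * (u + H)) : ℕ) : ℝ) ≤ f X →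
        (((Ioc u (u + H)).filter (fun k : ℕ => ¬ ∃ δ, 1 ≤ δ ∧ δ ≤ R T₀ r ∧
          Common X d a A (N * (δ * k)))).card : ℝ) ≤ ε * H) ∧
    ∃ C : ℕ, ∀ᶠ X : ℝ in atTop,
      ∀ a : Fin r → ℕ, (∀ j, (a j).Coprime (d j)) → ∀ N : ℕ, 0 < N → M ∣ N →
      ∀ Y : ℕ, C ≤ Y → ((C * (N * Y) : ℕ) : ℝ) ≤ f X →
        (Y : ℝ) ≤ 4 * (R T₀ r) ^ 2 * ((Ioc 0 Y).filter (fun k : ℕ => Common X d a A (N * k))).card := by
  obtain ⟨T₀, hT₀, h⟩ := Pool.Agent.Q84.RS.both
  refine ⟨T₀, hT₀, fun r hr A d hA hd => ?_⟩
  obtain ⟨M, hM, h1, C, h2⟩ := h r hr A d hA hd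
  refine ⟨M, hM, fun ε hε => ?_, C, ?_⟩
  · obtain ⟨C, hC⟩ := h1 ε hε
    refine ⟨C, ?_⟩
    filter_upwards [hC] with X hX a ha N hN hMN u H hCH hHX
    have h3 := hX a ha N hN hMN u H hCH hHX
    refine le_trans (le_of_eq ?_) h3
    congr 2
  · filter_upwards [h2] with X hX a ha N hN hMN Y hCY hY
    have h3 := hX a ha N hN hMN Y hCY hY
    refine h3.trans (le_of_eq ?_)
    congr 3
    exact filter_congr fun k _ => Iff.rfl

end Pool.Agent.Results.MP_c853c5_nt.CommonGapSizes
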