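import Mathlib
import Pool.Agent.Q136.MG.Fin

set_option autoImplicit false

/-!
# Long prime-free intervals around the dilates of an arbitrary sequence

How sparse may the set of the starting points `n` be such that `g(n)` is still large infinitely
often? Here the starting points are the integer parts of the dilates `α x_0, α x_1, …` of an
ARBITRARY sequence of real numbers which tends to infinity (for instance `x_n = b^n`, the truncated
base-`b` expansions of `α`, or `x_n = n!`, or any faster growing sequence).

* For almost every `α > 0` the distances of the numbers `α x_n` to the primes are not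
  `O(log x_n)`.
* For a comeager set of `α > 0` they are infinitely often at least `c f(x_n)`, where `f` is the
  record scale of the starting files and `c` an absolute constant.
* The set of the `α` in any interval for which they are infinitely often at least `c f(x_n)` has
  Hausdorff dimension at least `1 - ε`, with `c = c(ε)` depending only on `ε`; the set of the `α`
  in any interval for which this holds with some `c > 0` has Hausdorff dimension `1`.

The inputs are the frequency of long covered runs in arbitrary windows (`Pool.Agent.Y831.RC.abund5`,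
helper831) with Lebesgue's density theorem, and record gaps in short intervals
(`MP_c853c5_nt.NoAlmostPrimes`, helper877 and helper415) with Baire's theorem and a Cantor
construction (`Pool.Agent.Q136.MG.dimH_limsup`).
-/

open MeasureTheory Filter Topology

namespace Pool.Agent.Results.MP_c853c5_nt.DilatesOfSequences

/-- `g(n) = q(n) - n`, where `q(n)` is the least prime `> n`. -/
noncomputable def g (n : ℕ) : ℕ := sInf {p : ℕ | p.Prime ∧ n < p} - n

/-- The record scale `f(x) = log x (log₂ x)² log₄ x / (log₃ x)²` (iterated natural logarithms). -/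
noncomputable def f (x : ℝ) : ℝ :=
  Real.log x * (Real.log (Real.log x)) ^ 2 * Real.log (Real.log (Real.log (Real.log x))) /
    (Real.log (Real.log (Real.log x))) ^ 2

/-- Every prime is at a distance greater than `H` from the real number `y`. -/
def Far (H y : ℝ) : Prop := ∀ q : ℕ, q.Prime → H < |(q : ℝ) - y|

/-- The first part relates `Far` to the function `g` of the problem. In the other parts `x` is an
arbitrary sequence of real numbers that tends to infinity, and `∃ᶠ n in atTop` means: for infinitely
many `n`. -/
theorem result :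
    (∀ H y : ℝ, 0 ≤ y → Far H y → H < g ⌊y⌋₊) ∧
    (∀ x : ℕ → ℝ, Tendsto x atTop atTop → ∀ᵐ α : ℝ, 0 < α →
      ∀ K : ℝ, ∃ᶠ n in atTop, Far (K * Real.log (x n)) (α * x n)) ∧
    (∃ c : ℝ, 0 < c ∧ ∀ x : ℕ → ℝ, Tendsto x atTop atTop → ∀ᶠ α in residual ℝ, 0 < α →
      ∃ᶠ n in atTop, Far (c * f (x n)) (α * x n)) ∧
    (∀ ε : ℝ, 0 < ε → ∃ c : ℝ, 0 < c ∧ ∀ x : ℕ → ℝ, Tendsto x atTop atTop →
      ∀ a b : ℝ, 0 < a → a < b → ENNReal.ofReal (1 - ε) ≤
        dimH {α : ℝ | a < α ∧ α < b ∧ ∃ᶠ n in atTop, Far (c * f (x n)) (α * x n)}) ∧
    (∀ x : ℕ → ℝ, Tendsto x atTop atTop → ∀ a b : ℝ, 0 < a → a < b →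
      dimH {α : ℝ | a < α ∧ α < b ∧
        ∃ c : ℝ, 0 < c ∧ ∃ᶠ n in atTop, Far (c * f (x n)) (α * x n)} = 1) :=
  ⟨fun _ _ hy h => Pool.Agent.Q136.MG.Far.lt_gap hy h, Pool.Agent.Q136.MG.ae_main,
    Pool.Agent.Q136.MG.baire_main, Pool.Agent.Q136.MG.dim_eps, Pool.Agent.Q136.MG.dim_one⟩

end Pool.Agent.Results.MP_c853c5_nt.DilatesOfSequences
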