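import Mathlib
import Pool.Agent.Q273.SH.Fin

/-!
# The function `g` takes every prescribed sequence of values up to the record order

`q(n)` is the least prime number larger than `n` and `g(n) = q(n) - n`. We show, without hypothesis,
that `g` takes EVERY prescribed value `h` up to the order `f` of the largest known values of `g` in
every short interval, and all prescribed values `h_n` at ALL terms of the sequence of the integer
parts of `α x_n`, for every rapidly increasing sequence `x_n` and most `α`; moreover each of these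
primes `q` is the end of a gap of the record order.
-/

set_option autoImplicit false

open Filter Topology

namespace Pool.Agent.Results.MP_c853c5_nt.EveryPrescribedValue

/-- the least prime number larger than `n` -/
noncomputable def q (n : ℕ) : ℕ := sInf {p : ℕ | p.Prime ∧ n < p}

/-- `g(n) = q(n) - n` -/
noncomputable def g (n : ℕ) : ℕ := q n - n

/-- The record scale `f(x) = log x (log₂ x)² log₄ x / (log₃ x)²` (iterated natural logarithms). -/
noncomputable def f (x : ℝ) : ℝ :=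
  Real.log x * (Real.log (Real.log x)) ^ 2 * Real.log (Real.log (Real.log (Real.log x))) /
    (Real.log (Real.log (Real.log x))) ^ 2

/-- `g(m) = h`, and every prime number smaller than `q(m)` is smaller than `q(m)` by more than `D`:
`q(m)` is the end of a gap longer than `D` -/
def Good (D : ℝ) (h m : ℕ) : Prop :=
  g m = h ∧ ∀ r : ℕ, r.Prime → r < q m → (r : ℝ) + D < q m

open Pool.Agent.Q273.SH (EndOfGap next_eq shift_core win_count f_nonneg)

private lemma good_of {D : ℝ} {h m : ℕ} (h1 : 1 ≤ h) (h2 : (h : ℝ) ≤ D) (hE : EndOfGap D (m + h)) :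
    Good D h m := by
  have h3 : q m = m + h := next_eq h1 h2 hE
  refine ⟨?_, ?_⟩
  · unfold g
    rw [h3]
    omega
  · rw [h3]
    exact hE.2

/-- **Every prescribed sequence of values of `g`.** There are `0 < δ < 1 / 2` and `C > 1` with the
following properties.

1. For every `0 < ε < 1 / 2` there is `c > 0` such that for all large real `X` and EVERY integer `h`,
   `1 ≤ h ≤ c f(X)`, at least `X ^ (1 - δ - ε)` integers `m` in `(X, X + X ^ (1 - δ)]` have `g(m) = h`,
   and `q(m)` is the end of a gap longer than `c f(X)`.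
2. For every `0 < ε < 1` there is `c > 0` such that for EVERY sequence `x_n > 0` tending to infinity
   with `x_{n+1} ≥ x_n ^ C` for large `n`, EVERY sequence of integers `h_n` with
   `1 ≤ h_n ≤ c f(x_n)` for large `n`, and `0 < u < v`, the `α` in `(u, v)` such that for ALL large `n`
   `g(⌊α x_n⌋) = h_n` and `q(⌊α x_n⌋)` is the end of a gap longer than `c f(x_n)` form a set of
   Hausdorff dimension at least `1 - ε`.
3. For `x_n` as in 2., integers `h_n ≥ 1` with `h_n = o(f(x_n))` and `0 < u < v` the set of the `α` in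
   `(u, v)` such that this holds for some `c > 0` has Hausdorff dimension exactly one. -/
theorem result : ∃ δ C : ℝ, 0 < δ ∧ δ < 1 / 2 ∧ 1 < C ∧
    (∀ ε : ℝ, 0 < ε → ε < 1 / 2 → ∃ c : ℝ, 0 < c ∧ ∀ᶠ X : ℝ in atTop, ∀ h : ℕ, 1 ≤ h →
      (h : ℝ) ≤ c * f X → X ^ (1 - δ - ε) ≤
        (({m : ℕ | X < m ∧ (m : ℝ) ≤ X + X ^ (1 - δ) ∧ Good (c * f X) h m}.ncard : ℕ) : ℝ)) ∧
    (∀ ε : ℝ, 0 < ε → ε < 1 → ∃ c : ℝ, 0 < c ∧
      ∀ x : ℕ → ℝ, (∀ n, 0 < x n) → Tendsto x atTop atTop →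
      (∀ᶠ n in atTop, (x n) ^ C ≤ x (n + 1)) →
      ∀ h : ℕ → ℕ, (∀ᶠ n in atTop, 1 ≤ h n ∧ (h n : ℝ) ≤ c * f (x n)) →
      ∀ u v : ℝ, 0 < u → u < v → ENNReal.ofReal (1 - ε) ≤
        dimH {α : ℝ | u < α ∧ α < v ∧ ∀ᶠ n in atTop, Good (c * f (x n)) (h n) ⌊α * x n⌋₊}) ∧
    (∀ x : ℕ → ℝ, (∀ n, 0 < x n) → Tendsto x atTop atTop →
      (∀ᶠ n in atTop, (x n) ^ C ≤ x (n + 1)) →
      ∀ h : ℕ → ℕ, (∀ᶠ n in atTop, 1 ≤ h n) →
      (fun n => (h n : ℝ)) =o[atTop] (fun n => f (x n)) →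
      ∀ u v : ℝ, 0 < u → u < v →
        dimH {α : ℝ | u < α ∧ α < v ∧ ∃ c : ℝ, 0 < c ∧
          ∀ᶠ n in atTop, Good (c * f (x n)) (h n) ⌊α * x n⌋₊} = 1) := by
  obtain ⟨δ, hδ0, hδ1, hwin⟩ := win_count
  obtain ⟨C, hC, hcore⟩ := shift_core
  have hmain : ∀ ε : ℝ, 0 < ε → ε < 1 → ∃ c : ℝ, 0 < c ∧
      ∀ x : ℕ → ℝ, (∀ n, 0 < x n) → Tendsto x atTop atTop →
      (∀ᶠ n in atTop, (x n) ^ C ≤ x (n + 1)) →
      ∀ h : ℕ → ℕ, (∀ᶠ n in atTop, 1 ≤ h n ∧ (h n : ℝ) ≤ c * f (x n)) →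
      ∀ u v : ℝ, 0 < u → u < v → ENNReal.ofReal (1 - ε) ≤
        dimH {α : ℝ | u < α ∧ α < v ∧ ∀ᶠ n in atTop, Good (c * f (x n)) (h n) ⌊α * x n⌋₊} := by
    intro ε h0 h1
    obtain ⟨c, hc, h2⟩ := hcore ε h0 h1
    refine ⟨c, hc, fun x hx hxt hxC h hh u v hu huv => ?_⟩
    refine (h2 x hx hxt hxC h (hh.mono fun n hn => hn.2) u v hu huv).trans (dimH_mono ?_)
    rintro α ⟨g1, g2, g3⟩
    refine ⟨g1, g2, ?_⟩
    filter_upwards [g3, hh] with n g4 g5
    exact good_of g5.1 g5.2 g4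
  refine ⟨δ, C, hδ0, hδ1, hC, ?_, hmain, ?_⟩
  · intro ε h0 h1
    obtain ⟨c, hc, h2⟩ := hwin ε h0 h1
    refine ⟨c, hc, ?_⟩
    filter_upwards [h2] with X hX
    intro h h3 h4
    refine (hX h h4).trans ?_
    have hfin : {m : ℕ | X < m ∧ (m : ℝ) ≤ X + X ^ (1 - δ) ∧ Good (c * f X) h m}.Finite := by
      refine (Set.finite_Iic ⌊X + X ^ (1 - δ)⌋₊).subset ?_
      rintro m ⟨-, h2, -⟩
      exact Nat.le_floor h2
    have hsub : {m : ℕ | X < m ∧ (m : ℝ) ≤ X + X ^ (1 - δ) ∧
        EndOfGap (c * Pool.Agent.Q273.CG.f X) (m + h)} ⊆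
        {m : ℕ | X < m ∧ (m : ℝ) ≤ X + X ^ (1 - δ) ∧ Good (c * f X) h m} := by
      rintro m ⟨g1, g2, g3⟩
      exact ⟨g1, g2, good_of h3 h4 g3⟩
    exact_mod_cast Set.ncard_le_ncard hsub hfin
  · intro x hx hxt hxC h hh ho u v hu huv
    apply le_antisymm
    · calc dimH _ ≤ dimH (Set.univ : Set ℝ) := dimH_mono (Set.subset_univ _)
        _ = 1 := Real.dimH_univ
    · apply le_of_forall_lt
      intro y hy
      obtain ⟨z, hz1, hz2⟩ := exists_between hy
      have hzt : z ≠ ⊤ := (hz2.trans_le le_top).ne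
      lift z to NNReal using hzt
      have hz0 : 0 < z := by
        have := lt_of_le_of_lt zero_le hz1
        exact_mod_cast this
      have hz3 : (z : ℝ) < 1 := by exact_mod_cast hz2
      have hz4 : (0 : ℝ) < z := by exact_mod_cast hz0
      obtain ⟨c, hc, h2⟩ := hmain (1 - z) (by linarith) (by linarith)
      have h3 : ∀ᶠ n in atTop, 1 ≤ h n ∧ (h n : ℝ) ≤ c * f (x n) := by
        filter_upwards [hh, ho.def hc, hxt.eventually f_nonneg] with n g1 g2 g3
        refine ⟨g1, ?_⟩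
        have g3' : 0 ≤ f (x n) := g3
        rw [Real.norm_eq_abs, Real.norm_eq_abs, abs_of_nonneg (Nat.cast_nonneg _),
          abs_of_nonneg g3'] at g2
        exact g2
      have h4 := h2 x hx hxt hxC h h3 u v hu huv
      have h5 : ENNReal.ofReal (1 - (1 - (z : ℝ))) = z := by
        rw [sub_sub_cancel]
        exact ENNReal.ofReal_coe_nnreal
      rw [h5] at h4
      refine lt_of_lt_of_le hz1 (h4.trans (dimH_mono ?_))
      rintro α ⟨h6, h7, h8⟩
      exact ⟨h6, h7, c, hc, h8⟩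

end Pool.Agent.Results.MP_c853c5_nt.EveryPrescribedValue
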