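import Pool.Agent.Q120.SH.Main

/-!
# Cramér's model: every set of positions, every set of shifts

`A` is Cramér's random set, `B` any nonempty set of shifts, `X` any set of positions. For the sums `a + b`
(`a ∈ A`, `b ∈ B`) the windows starting at the points of `X` are controlled by their weights, the expected numbers
of the elements of `A` with a translate in the window: the critical weight is `θ log x`, with `θ` the exponent of
convergence of `X`, whatever `B` is. For `B = {0}` this gives the largest gaps at the points of `X`.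
-/

set_option autoImplicit false

namespace Pool.Agent.Results.MP_c853c5_nt.EverySetOfShifts

open Finset MeasureTheory Filter Pool.Agent.Q120.ET Pool.Agent.Q120.MF Pool.Agent.Q120.SH

variable {Ω : Type*} [MeasurableSpace Ω] {μ : Measure Ω} [IsProbabilityMeasure μ] {A : Ω → Set ℕ}

theorem mem_rel_zero {x h n : ℕ} : n ∈ rel {0} x h ↔ 3 ≤ n ∧ x < n ∧ n ≤ x + h := by
  rw [mem_rel]
  constructor
  · rintro ⟨h1, b, hb, h2, h3⟩
    rw [Set.mem_singleton_iff] at hb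
    subst hb
    exact ⟨h1, by omega, by omega⟩
  · rintro ⟨h1, h2, h3⟩
    exact ⟨h1, 0, rfl, by omega, by omega⟩

theorem upper_gap (hA : IsCramer μ A) {X : Set ℕ} {τ ε : ℝ} (hτ : 0 ≤ τ) (hε : 0 < ε)
    (hX : ∀ θ : ℝ, τ < θ → Summable (X.indicator (fun x : ℕ => (x : ℝ) ^ (-θ)))) :
    ∀ᵐ ω ∂μ, ∀ᶠ x : ℕ in atTop, x ∈ X → ∃ a ∈ A ω, x < a ∧ (a : ℝ) ≤ x + (τ + ε) * Real.log x ^ 2 := by
  obtain ⟨θ, hθ⟩ : ∃ θ : ℝ, θ = τ + ε / 2 := ⟨_, rfl⟩
  have hθ0 : 0 < θ := by linarith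
  obtain ⟨X', hX'⟩ : ∃ X' : Set ℕ, X' = X ∩ {x | 1 ≤ x} := ⟨_, rfl⟩
  have hsum : Summable (X'.indicator (fun x : ℕ => Real.exp (-(θ * Real.log x)))) := by
    refine Summable.of_nonneg_of_le
      (fun x => Set.indicator_nonneg (fun _ _ => (Real.exp_pos _).le) x) (fun x => ?_) (hX θ (by linarith))
    by_cases hx : x ∈ X'
    · rw [Set.indicator_of_mem hx]
      rw [hX'] at hx
      rw [Set.indicator_of_mem hx.1]
      have h1 : (0 : ℝ) < x := by
        have : 1 ≤ x := hx.2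
        exact_mod_cast this
      rw [Real.rpow_def_of_pos h1]
      apply le_of_eq
      congr 1
      ring
    · rw [Set.indicator_of_notMem hx]
      exact Set.indicator_nonneg (fun _ _ => Real.rpow_nonneg (Nat.cast_nonneg _) _) x
  obtain ⟨δ, hδ⟩ : ∃ δ : ℝ, δ = (ε / 4) / θ := ⟨_, rfl⟩
  have hδ0 : 0 < δ := by rw [hδ]; positivity
  have hδθ : θ * (1 + δ) = τ + 3 * ε / 4 := by
    rw [hδ, hθ] at *
    have : τ + ε / 2 ≠ 0 := by linarith
    field_simp
    ring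
  -- the sizes
  have hl : Tendsto (fun x : ℕ => Real.log (x : ℝ)) atTop atTop :=
    Real.tendsto_log_atTop.comp tendsto_natCast_atTop_atTop
  have h3 : ∀ᶠ x : ℕ in atTop, (x : ℝ) + (τ + ε) * Real.log x ^ 2 ≤ 2 * x := by
    have h4 := (isLittleO_log_rpow_atTop (show (0 : ℝ) < 1 / 2 by norm_num)).bound
      (show (0 : ℝ) < 1 / (1 + τ + ε) by positivity)
    have h5 := tendsto_natCast_atTop_atTop (R := ℝ).eventually h4
    filter_upwards [h5, eventually_ge_atTop 1] with x hx hx1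
    have hx1' : (1 : ℝ) ≤ x := by exact_mod_cast hx1
    have h6 : 0 ≤ Real.log (x : ℝ) := Real.log_nonneg hx1'
    rw [Real.norm_of_nonneg h6, Real.norm_of_nonneg (by positivity)] at hx
    have h7 : Real.log x ^ 2 ≤ (1 / (1 + τ + ε)) ^ 2 * x := by
      calc Real.log x ^ 2 ≤ (1 / (1 + τ + ε) * (x : ℝ) ^ (1 / 2 : ℝ)) ^ 2 := by gcongr
        _ = (1 / (1 + τ + ε)) ^ 2 * x := by
          rw [mul_pow, ← Real.rpow_natCast ((x : ℝ) ^ (1 / 2 : ℝ)), ← Real.rpow_mul (by positivity)]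
          norm_num
    have h8 : (τ + ε) * (1 / (1 + τ + ε)) ^ 2 ≤ 1 := by
      rw [div_pow, one_pow, mul_one_div, div_le_one (by positivity)]
      nlinarith [mul_nonneg hτ hε.le, sq_nonneg (τ + ε)]
    have h9 : (τ + ε) * Real.log x ^ 2 ≤ (τ + ε) * ((1 / (1 + τ + ε)) ^ 2 * x) :=
      mul_le_mul_of_nonneg_left h7 (by linarith)
    nlinarith
  filter_upwards [covered hA {0} X' (fun x => θ * Real.log x) hsum] with ω hω
  filter_upwards [hω, h3, eventually_ge_atTop 3, hl.eventually_ge_atTop (4 / ε + 1),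
    hl.eventually_ge_atTop (Real.log 2 / δ)] with x hx hx3 hx1 hx4 hx5 hxX
  have hx1' : (3 : ℝ) ≤ x := by exact_mod_cast hx1
  have hlog1 := one_lt_log hx1
  obtain ⟨h, hh⟩ : ∃ h : ℕ, h = ⌊(τ + ε) * Real.log x ^ 2⌋₊ := ⟨_, rfl⟩
  have hnn : 0 ≤ (τ + ε) * Real.log x ^ 2 := by positivity
  have hh1 : (h : ℝ) ≤ (τ + ε) * Real.log x ^ 2 := by rw [hh]; exact Nat.floor_le hnn
  have hh2 : (τ + ε) * Real.log x ^ 2 < h + 1 := by rw [hh]; exact Nat.lt_floor_add_one _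
  have hsub : Finset.Ioc x (x + h) ⊆ rel {0} x h := by
    intro n hn
    rw [Finset.mem_Ioc] at hn
    exact mem_rel_zero.2 ⟨by omega, hn.1, hn.2⟩
  have hz : ((x + h : ℕ) : ℝ) ≤ (x : ℝ) ^ (1 + δ) := by
    have h5 : (2 : ℝ) ≤ (x : ℝ) ^ δ := by
      rw [div_le_iff₀ hδ0] at hx5
      rw [← Real.log_le_log_iff (by norm_num) (by positivity), Real.log_rpow (by linarith)]
      linarith
    rw [Real.rpow_add (by linarith), Real.rpow_one]
    push_cast
    nlinarith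
  have hw := card_div_le_weight _ hsub hz
  rw [Nat.card_Ioc, Real.log_rpow (by linarith)] at hw
  have h6 : (x + h - x : ℕ) = h := by omega
  rw [h6] at hw
  have hfw : θ * Real.log x ≤ weight {0} x h := by
    refine le_trans ?_ hw
    rw [le_div_iff₀ (by have : 0 < 1 + δ := by linarith
                        positivity)]
    have h7 : θ * Real.log x * ((1 + δ) * Real.log x) = (τ + 3 * ε / 4) * Real.log x ^ 2 := by
      rw [← hδθ]; ring
    rw [h7]
    have h8 : 1 ≤ ε / 4 * Real.log x ^ 2 := by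
      have h9 : 4 / ε ≤ Real.log x ^ 2 := by nlinarith
      rw [div_le_iff₀ hε] at h9
      linarith
    nlinarith
  have h9 := hx (by rw [hX']; exact ⟨hxX, by show 1 ≤ x; omega⟩) h hfw
  unfold FreeSums at h9
  push Not at h9
  obtain ⟨m, ⟨a, ha, b, hb, ha3, hm⟩, hm1, hm2⟩ := h9
  rw [Set.mem_singleton_iff] at hb
  refine ⟨a, ha, by omega, ?_⟩
  have h10 : (a : ℝ) ≤ x + h := by
    have : a ≤ x + h := by omega
    exact_mod_cast this
  linarith

theorem lower_gap (hA : IsCramer μ A) {X : Set ℕ} {τ ε : ℝ} (hε : 0 < ε) (hετ : ε < τ)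
    (hX : ∀ θ : ℝ, 0 < θ → θ < τ → ¬ Summable (X.indicator (fun x : ℕ => (x : ℝ) ^ (-θ)))) :
    ∀ᵐ ω ∂μ, ∃ᶠ x : ℕ in atTop, x ∈ X ∧
      ∀ a ∈ A ω, ¬ (x < a ∧ (a : ℝ) ≤ x + (τ - ε) * Real.log x ^ 2) := by
  filter_upwards [uncovered hA (Set.singleton_nonempty 0) X (show 0 < τ - ε / 2 by linarith)
    (show τ - ε / 2 < τ - ε / 4 by linarith) (hX (τ - ε / 4) (by linarith) (by linarith))] with ω hω
  refine (hω.and_eventually (eventually_ge_atTop 3)).mono ?_
  rintro x ⟨⟨hxX, hx⟩, hx3⟩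
  refine ⟨hxX, ?_⟩
  rintro a ha ⟨h1, h2⟩
  have hlog1 := one_lt_log hx3
  obtain ⟨h, hh⟩ : ∃ h : ℕ, h = ⌊(τ - ε) * Real.log x ^ 2⌋₊ := ⟨_, rfl⟩
  have hnn : 0 ≤ (τ - ε) * Real.log x ^ 2 := by
    have : 0 < τ - ε := by linarith
    positivity
  have hh1 : (h : ℝ) ≤ (τ - ε) * Real.log x ^ 2 := by rw [hh]; exact Nat.floor_le hnn
  have hw : weight {0} x h ≤ (τ - ε / 2) * Real.log x := by
    have h3 : weight {0} x h ≤ ∑ n ∈ rel {0} x h, 1 / Real.log (x : ℝ) := by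
      unfold weight
      apply sum_le_sum
      intro n hn
      rw [mem_rel_zero] at hn
      apply one_div_le_one_div_of_le (by linarith)
      apply Real.log_le_log
      · have : 0 < x := by omega
        exact_mod_cast this
      · exact_mod_cast hn.2.1.le
    rw [sum_const, nsmul_eq_mul, mul_one_div] at h3
    have h4 : (rel {0} x h).card ≤ h := by
      have h5 : rel {0} x h ⊆ Finset.Ioc x (x + h) := by
        intro n hn
        rw [mem_rel_zero] at hn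
        exact Finset.mem_Ioc.2 ⟨hn.2.1, hn.2.2⟩
      have h6 := card_le_card h5
      rw [Nat.card_Ioc] at h6
      omega
    have h4' : ((rel {0} x h).card : ℝ) ≤ h := by exact_mod_cast h4
    have h5 : ((rel {0} x h).card : ℝ) / Real.log x ≤ (τ - ε) * Real.log x := by
      rw [div_le_iff₀ (by linarith)]
      nlinarith
    nlinarith
  have hfree := hx h hw
  refine hfree a ⟨a, ha, 0, rfl, by omega, by omega⟩ ⟨h1, ?_⟩
  have h3 : a - x ≤ h := by
    rw [hh]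
    apply Nat.le_floor
    have h4 : x ≤ a := h1.le
    push_cast [h4]
    linarith
  omega

/-- **Cramér's model: every set of positions, every set of shifts.** -/
theorem result :
    -- Cramér's model exists
    (IsProbabilityMeasure cramerMeasure ∧ IsCramer cramerMeasure cramerSet) ∧
    ∀ (Ω : Type) [MeasurableSpace Ω] (μ : Measure Ω) [IsProbabilityMeasure μ] (A : Ω → Set ℕ),
      IsCramer μ A →
      -- windows of weight at least `f x` at the points of `X`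
      (∀ (B X : Set ℕ) (f : ℕ → ℝ), Summable (X.indicator (fun x => Real.exp (-f x))) →
        ∀ᵐ ω ∂μ, ∀ᶠ x in atTop, x ∈ X → ∀ h, f x ≤ weight B x h → ¬ FreeSums (A ω) B x h) ∧
      -- windows of weight at most `θ log x` at the points of `X`
      (∀ (B X : Set ℕ) (θ θ' : ℝ), B.Nonempty → 0 < θ → θ < θ' →
        ¬ Summable (X.indicator (fun x : ℕ => (x : ℝ) ^ (-θ'))) →
        ∀ᵐ ω ∂μ, ∃ᶠ x in atTop, x ∈ X ∧ ∀ h, weight B x h ≤ θ * Real.log x → FreeSums (A ω) B x h) ∧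
      -- the largest gaps at the points of `X`
      (∀ (X : Set ℕ) (τ : ℝ), 0 ≤ τ →
        (∀ θ : ℝ, τ < θ → Summable (X.indicator (fun x : ℕ => (x : ℝ) ^ (-θ)))) →
        (∀ θ : ℝ, 0 < θ → θ < τ → ¬ Summable (X.indicator (fun x : ℕ => (x : ℝ) ^ (-θ)))) →
        ∀ᵐ ω ∂μ, ∀ ε : ℝ, 0 < ε →
          (∀ᶠ x : ℕ in atTop, x ∈ X → ∃ a ∈ A ω, x < a ∧ (a : ℝ) ≤ x + (τ + ε) * Real.log x ^ 2) ∧
          (ε < τ → ∃ᶠ x : ℕ in atTop, x ∈ X ∧
            ∀ a ∈ A ω, ¬ (x < a ∧ (a : ℝ) ≤ x + (τ - ε) * Real.log x ^ 2))) := by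
  refine ⟨⟨inferInstance, isCramer⟩, ?_⟩
  intro Ω _ μ _ A hA
  refine ⟨fun B X f hX => covered hA B X f hX, fun B X θ θ' hB h1 h2 h3 => uncovered hA hB X h1 h2 h3, ?_⟩
  intro X τ hτ hX1 hX2
  have h1 : ∀ᵐ ω ∂μ, ∀ m : ℕ, ∀ᶠ x : ℕ in atTop, x ∈ X →
      ∃ a ∈ A ω, x < a ∧ (a : ℝ) ≤ x + (τ + 1 / ((m : ℝ) + 1)) * Real.log x ^ 2 :=
    ae_all_iff.2 (fun m => upper_gap hA hτ (by positivity) hX1)
  have h2 : ∀ᵐ ω ∂μ, ∀ m : ℕ, 1 / ((m : ℝ) + 1) < τ → ∃ᶠ x : ℕ in atTop, x ∈ X ∧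
      ∀ a ∈ A ω, ¬ (x < a ∧ (a : ℝ) ≤ x + (τ - 1 / ((m : ℝ) + 1)) * Real.log x ^ 2) := by
    refine ae_all_iff.2 (fun m => ?_)
    by_cases hm : 1 / ((m : ℝ) + 1) < τ
    · filter_upwards [lower_gap hA (show 0 < 1 / ((m : ℝ) + 1) by positivity) hm hX2] with ω hω _
      exact hω
    · exact ae_of_all _ (fun ω hcon => absurd hcon hm)
  filter_upwards [h1, h2] with ω hω1 hω2 ε hε
  obtain ⟨m, hm⟩ := exists_nat_one_div_lt hε
  constructor
  · filter_upwards [hω1 m] with x hx hxX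
    obtain ⟨a, ha, hxa, hax⟩ := hx hxX
    refine ⟨a, ha, hxa, hax.trans ?_⟩
    have := sq_nonneg (Real.log (x : ℝ))
    nlinarith
  · intro hετ
    refine (hω2 m (by linarith)).mono ?_
    rintro x ⟨hxX, hx⟩
    refine ⟨hxX, ?_⟩
    rintro a ha ⟨h3, h4⟩
    refine hx a ha ⟨h3, h4.trans ?_⟩
    have := sq_nonneg (Real.log (x : ℝ))
    nlinarith

end Pool.Agent.Results.MP_c853c5_nt.EverySetOfShifts
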